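import Mathlib

-- part Pool.Agent.P.MP_ee8931_an.Roots
section

/-! Root extraction and the product formula for the finite zero-angle function. -/

namespace Pool.Agent.P.MP_ee8931_an

open Polynomial Finset

/-- If `V(x) V(-x) = 0` then `V` has a factor `X + ζ` with `|ζ| = x`. -/
theorem exists_factor (V : ℝ[X]) {x : ℝ} (hx : 0 ≤ x) (h : V.eval x * V.eval (-x) = 0) :
    ∃ ζ : ℝ, |ζ| = x ∧ ∃ V₁, V = (X + C ζ) * V₁ := by
  rcases mul_eq_zero.mp h with h | h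
  · refine ⟨-x, by rw [abs_neg, abs_of_nonneg hx], ?_⟩
    have := (dvd_iff_isRoot (p := V) (a := x)).mpr h
    rwa [map_neg, ← sub_eq_add_neg]
  · refine ⟨x, abs_of_nonneg hx, ?_⟩
    have := (dvd_iff_isRoot (p := V) (a := -x)).mpr h
    rwa [map_neg, sub_neg_eq_add] at this

theorem g_factor (V₁ : ℝ[X]) (ζ t : ℝ) :
    ((X + C ζ) * V₁).eval t * ((X + C ζ) * V₁).eval (-t) =
      (|ζ| ^ 2 - t ^ 2) * (V₁.eval t * V₁.eval (-t)) := by
  simp only [eval_mul, eval_add, eval_X, eval_C, sq_abs]; ring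

theorem nonneg_of_right {F : ℝ → ℝ} (hF : Continuous F) {a b : ℝ} (hab : a < b)
    (h : ∀ t ∈ Set.Ioc a b, 0 ≤ F t) : 0 ≤ F a := by
  have : a ∈ closure (Set.Ioc a b) := by rw [closure_Ioc hab.ne]; exact ⟨le_rfl, hab.le⟩
  exact (closure_minimal h (isClosed_le continuous_const hF)) this

theorem root_extract (n : ℕ) : ∀ (a : ℕ → ℝ) (τ : ℝ) (V : ℝ[X]), τ ≠ 0 →
    (∀ i j, i < j → j ≤ n → a j < a i) → 0 ≤ a n →
    (∀ k ≤ n, 0 ≤ (-1) ^ k * τ * (V.eval (a k) * V.eval (-a k))) →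
    ∃ ζ : ℕ → ℝ, (∀ k < n, |ζ k| ≤ a k) ∧ ∏ k ∈ range n, (X + C (ζ k)) ∣ V := by
  induction n with
  | zero => intro a τ V _ _ _ _; exact ⟨fun _ => 0, by simp, by simp⟩
  | succ n ih =>
    intro a τ V hτ ha h0 hs
    have hpos : ∀ k ≤ n + 1, 0 ≤ a k := fun k hk => by
      rcases hk.eq_or_lt with rfl | h
      · exact h0
      · exact h0.trans (ha k _ h le_rfl).le
    have h10 : a 1 < a 0 := ha 0 1 (by omega) (by omega)
    have hc : ∀ U : ℝ[X], Continuous fun t => τ * (U.eval t * U.eval (-t)) := fun U =>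
      continuous_const.mul (U.continuous.mul (U.continuous.comp continuous_neg))
    have key : ∃ ζ₀ : ℝ, |ζ₀| ≤ a 0 ∧ ∃ V₁, V = (X + C ζ₀) * V₁ ∧
        ∀ k ≤ n, 0 ≤ (-1) ^ k * (-τ) * (V₁.eval (a (k + 1)) * V₁.eval (-a (k + 1))) := by
      have gen : ∀ (ζ₀ : ℝ) (V₁ : ℝ[X]), V = (X + C ζ₀) * V₁ → ∀ k ≤ n, a (k + 1) < |ζ₀| →
          0 ≤ (-1) ^ k * (-τ) * (V₁.eval (a (k + 1)) * V₁.eval (-a (k + 1))) := by
        intro ζ₀ V₁ hV k hk hlt
        have h1 := hs (k + 1) (by omega)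
        rw [hV, g_factor] at h1
        have h2 : 0 < |ζ₀| ^ 2 - a (k + 1) ^ 2 := by
          have := hpos (k + 1) (by omega)
          nlinarith
        refine nonneg_of_mul_nonneg_right (a := |ζ₀| ^ 2 - a (k + 1) ^ 2) ?_ h2
        exact h1.trans_eq (by ring)
      by_cases hA : ∃ x ∈ Set.Ioc (a 1) (a 0), V.eval x * V.eval (-x) = 0
      · obtain ⟨x, hx, hx0⟩ := hA
        obtain ⟨ζ₀, h1, V₁, hV⟩ := exists_factor V ((hpos 1 (by omega)).trans hx.1.le) hx0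
        refine ⟨ζ₀, h1 ▸ hx.2, V₁, hV, fun k hk => gen ζ₀ V₁ hV k hk ?_⟩
        rw [h1]
        rcases Nat.eq_zero_or_pos k with rfl | hk0
        · exact hx.1
        · exact (ha 1 (k + 1) (by omega) (by omega)).trans hx.1
      · push Not at hA
        have hp : ∀ t ∈ Set.Ioc (a 1) (a 0), 0 ≤ τ * (V.eval t * V.eval (-t)) := by
          intro t ht
          by_contra hneg
          push Not at hneg
          have h1 : 0 ≤ τ * (V.eval (a 0) * V.eval (-a 0)) := by simpa using hs 0 (by omega)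
          obtain ⟨x, hx, hx0⟩ := intermediate_value_Icc ht.2 (hc V).continuousOn ⟨hneg.le, h1⟩
          exact hA x ⟨ht.1.trans_le hx.1, hx.2⟩ ((mul_eq_zero.mp hx0).resolve_left hτ)
        have h1 := nonneg_of_right (hc V) h10 hp
        have h2 : 0 ≤ -(τ * (V.eval (a 1) * V.eval (-a 1))) := by
          have := hs 1 (by omega)
          simpa [mul_assoc] using this
        have h3 : V.eval (a 1) * V.eval (-a 1) = 0 :=
          (mul_eq_zero.mp (le_antisymm (by linarith) h1)).resolve_left hτ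
        obtain ⟨ζ₀, h4, V₁, hV⟩ := exists_factor V (hpos 1 (by omega)) h3
        refine ⟨ζ₀, h4 ▸ h10.le, V₁, hV, fun k hk => ?_⟩
        rcases Nat.eq_zero_or_pos k with rfl | hk0
        · have h5 : 0 ≤ -(τ * (V₁.eval (a 1) * V₁.eval (-a 1))) := by
            refine nonneg_of_right (F := fun t => -(τ * (V₁.eval t * V₁.eval (-t))))
              (hc V₁).neg h10 fun t ht => ?_
            have h6 := hp t ht
            rw [hV, g_factor, h4] at h6
            have h7 : 0 < t ^ 2 - a 1 ^ 2 := by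
              have := hpos 1 (by omega)
              nlinarith [ht.1]
            refine nonneg_of_mul_nonneg_right (a := t ^ 2 - a 1 ^ 2) ?_ h7
            exact h6.trans_eq (by ring)
          simpa [mul_assoc] using h5
        · exact gen ζ₀ V₁ hV k hk (h4 ▸ ha 1 (k + 1) (by omega) (by omega))
    obtain ⟨ζ₀, h1, V₁, hV, h2⟩ := key
    obtain ⟨ζ, h3, h4⟩ := ih (fun k => a (k + 1)) (-τ) V₁ (neg_ne_zero.mpr hτ)
      (fun i j h5 h6 => ha _ _ (by omega) (by omega)) h0 h2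
    refine ⟨fun k => Nat.casesOn k ζ₀ ζ, ?_, ?_⟩
    · intro k hk
      cases k with
      | zero => exact h1
      | succ k => exact h3 k (by omega)
    · rw [prod_range_succ', hV, mul_comm]
      exact mul_dvd_mul_left _ h4

/-- Interlacing data. -/
structure Inter (ρ σ : ℕ → ℝ) : Prop where
  pos : ∀ k, 0 < σ k
  lt1 : ∀ k, σ k < ρ k
  lt2 : ∀ k, ρ (k + 1) < σ k

namespace Inter
variable {ρ σ : ℕ → ℝ} (h : Inter ρ σ)
include h

theorem rho_anti : StrictAnti ρ := strictAnti_nat_of_succ_lt fun k => (h.lt2 k).trans (h.lt1 k)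

theorem sigma_anti : StrictAnti σ := strictAnti_nat_of_succ_lt fun k => (h.lt1 _).trans (h.lt2 k)

theorem sigma_lt_rho {j k : ℕ} (hjk : j ≤ k) : σ k < ρ j :=
  (h.lt1 k).trans_le (h.rho_anti.antitone hjk)

theorem rho_lt_sigma {j k : ℕ} (hjk : k < j) : ρ j < σ k :=
  (h.rho_anti.antitone hjk).trans_lt (h.lt2 k)

theorem rho_pos (k : ℕ) : 0 < ρ k := (h.pos k).trans (h.lt1 k)

theorem sq_ne (j k : ℕ) : ρ j ^ 2 - σ k ^ 2 ≠ 0 := by
  have h1 := h.pos k
  have h2 := h.rho_pos j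
  rcases le_or_gt j k with hjk | hjk
  · have := h.sigma_lt_rho hjk; nlinarith
  · have := h.rho_lt_sigma hjk; nlinarith

theorem sign_prod {k N : ℕ} (hk : k < N) :
    0 < (-1) ^ (N + k + 1) * ∏ j ∈ range N, (ρ j ^ 2 - σ k ^ 2) := by
  induction N, hk using Nat.le_induction with
  | base =>
    rw [show k + 1 + k + 1 = 2 * (k + 1) by ring, pow_mul, neg_one_sq, one_pow, one_mul]
    refine prod_pos fun j hj => ?_
    have := h.sigma_lt_rho (show j ≤ k by have := mem_range.mp hj; omega)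
    have := h.pos k
    nlinarith
  | succ N hN ih =>
    rw [prod_range_succ, show N + 1 + k + 1 = N + k + 1 + 1 by ring, pow_succ]
    have h1 := h.rho_lt_sigma (show k < N from hN)
    have h2 := h.rho_pos N
    have h3 : 0 < σ k ^ 2 - ρ N ^ 2 := by nlinarith
    exact (mul_pos ih h3).trans_eq (by ring)

end Inter

/-- The polynomial attached to a solution of the linear system. -/
noncomputable def WW (σ : ℕ → ℝ) (N : ℕ) (r ε : ℝ) (y : ℕ → ℝ) : ℝ[X] :=
  C ε * ∏ k ∈ range N, ((X + C (σ k)) * (X + C (-σ k))) +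
    ∑ k ∈ range N, C (y k) * ((X + C (r * σ k)) *
      ∏ l ∈ (range N).erase k, ((X + C (σ l)) * (X + C (-σ l))))

theorem WW_eval (σ : ℕ → ℝ) (N : ℕ) (r ε : ℝ) (y : ℕ → ℝ) (x : ℝ) :
    (WW σ N r ε y).eval x = ε * ∏ k ∈ range N, (x ^ 2 - σ k ^ 2) +
      ∑ k ∈ range N, y k * ((x + r * σ k) * ∏ l ∈ (range N).erase k, (x ^ 2 - σ l ^ 2)) := by
  have : ∀ l, (x + σ l) * (x + -σ l) = x ^ 2 - σ l ^ 2 := fun l => by ring
  simp only [WW, eval_add, eval_mul, eval_C, eval_prod, eval_finsetSum, eval_X, this]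

theorem WW_eval_sigma (σ : ℕ → ℝ) {N : ℕ} (r ε : ℝ) (y : ℕ → ℝ) {k : ℕ} (hk : k < N) {x : ℝ}
    (hx : x ^ 2 = σ k ^ 2) : (WW σ N r ε y).eval x =
      y k * ((x + r * σ k) * ∏ l ∈ (range N).erase k, (σ k ^ 2 - σ l ^ 2)) := by
  rw [WW_eval, hx, prod_eq_zero (mem_range.mpr hk) (sub_self _), mul_zero, zero_add,
    sum_eq_single k]
  · intro j _ hjk
    rw [prod_eq_zero (i := k) (mem_erase.mpr ⟨hjk.symm, mem_range.mpr hk⟩) (sub_self _)]
    simp
  · intro h; exact absurd (mem_range.mpr hk) h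

theorem monic_pair (a b : ℝ) : ((X + C a) * (X + C b)).Monic :=
  (monic_X_add_C a).mul (monic_X_add_C b)

theorem natDegree_pair (a b : ℝ) : ((X + C a) * (X + C b)).natDegree = 2 := by
  rw [(monic_X_add_C a).natDegree_mul (monic_X_add_C b)]; simp

theorem pair_prod (s : Finset ℕ) (a b : ℕ → ℝ) :
    (∏ k ∈ s, ((X + C (a k)) * (X + C (b k)))).Monic ∧
    (∏ k ∈ s, ((X + C (a k)) * (X + C (b k)))).natDegree = 2 * s.card ∧
    (∏ k ∈ s, ((X + C (a k)) * (X + C (b k)))).nextCoeff = ∑ k ∈ s, (a k + b k) := by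
  refine ⟨monic_prod_of_monic _ _ fun k _ => monic_pair _ _, ?_, ?_⟩
  · rw [natDegree_prod_of_monic _ _ fun k _ => monic_pair _ _]
    simp [natDegree_pair, mul_comm]
  · rw [Monic.nextCoeff_prod _ _ fun k _ => monic_pair _ _]
    refine sum_congr rfl fun k _ => ?_
    rw [(monic_X_add_C _).nextCoeff_mul (monic_X_add_C _), nextCoeff_X_add_C, nextCoeff_X_add_C]

theorem pair_prod_coeff (n : ℕ) (a b : ℕ → ℝ) :
    (∏ k ∈ range (n + 1), ((X + C (a k)) * (X + C (b k)))).coeff (2 * n + 1) =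
      ∑ k ∈ range (n + 1), (a k + b k) := by
  obtain ⟨-, h2, h3⟩ := pair_prod (range (n + 1)) a b
  rw [← h3, nextCoeff_of_natDegree_pos (by rw [h2]; simp), h2]
  simp; rfl

theorem WW_coeff (σ : ℕ → ℝ) (n : ℕ) (r ε : ℝ) (y : ℕ → ℝ) :
    (WW σ (n + 1) r ε y).natDegree ≤ 2 * n + 2 ∧ (WW σ (n + 1) r ε y).coeff (2 * n + 2) = ε ∧
      (WW σ (n + 1) r ε y).coeff (2 * n + 1) = ∑ k ∈ range (n + 1), y k := by
  obtain ⟨h1, h2, -⟩ := pair_prod (range (n + 1)) σ fun k => -σ k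
  have h3 := pair_prod_coeff n σ fun k => -σ k
  rw [card_range] at h2
  have h4 : ∀ k ∈ range (n + 1), ((X + C (r * σ k)) *
      ∏ l ∈ (range (n + 1)).erase k, ((X + C (σ l)) * (X + C (-σ l)))).Monic ∧
      ((X + C (r * σ k)) *
      ∏ l ∈ (range (n + 1)).erase k, ((X + C (σ l)) * (X + C (-σ l)))).natDegree = 2 * n + 1 := by
    intro k hk
    obtain ⟨a1, a2, -⟩ := pair_prod ((range (n + 1)).erase k) σ fun k => -σ k
    refine ⟨(monic_X_add_C _).mul a1, ?_⟩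
    rw [(monic_X_add_C _).natDegree_mul a1, a2, card_erase_of_mem hk, natDegree_X_add_C]
    simp; ring
  refine ⟨?_, ?_, ?_⟩
  · refine (natDegree_add_le _ _).trans (max_le ?_ ?_)
    · exact (natDegree_C_mul_le _ _).trans (by rw [h2]; omega)
    · refine natDegree_sum_le_of_forall_le _ _ fun k hk => ?_
      exact (natDegree_C_mul_le _ _).trans (by rw [(h4 k hk).2]; omega)
  · rw [WW, coeff_add, coeff_C_mul, finsetSum_coeff, sum_eq_zero]
    · have := h1.coeff_natDegree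
      rw [h2] at this
      rw [show 2 * n + 2 = 2 * (n + 1) by ring, this]; ring
    · intro k hk
      rw [coeff_C_mul, coeff_eq_zero_of_natDegree_lt (by rw [(h4 k hk).2]; omega), mul_zero]
  · rw [WW, coeff_add, coeff_C_mul, finsetSum_coeff, h3]
    simp only [add_neg_cancel, sum_const_zero, mul_zero, zero_add]
    refine sum_congr rfl fun k hk => ?_
    have := (h4 k hk).1.coeff_natDegree
    rw [(h4 k hk).2] at this
    rw [coeff_C_mul, this, mul_one]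

theorem structure_thm {ρ σ : ℕ → ℝ} (h : Inter ρ σ) (n : ℕ) {r ε : ℝ} (hr0 : 0 ≤ r) (hr1 : r < 1)
    (y : ℕ → ℝ) (hy : ∀ j < n + 1,
      ∑ k ∈ range (n + 1), (ρ j - r * σ k) / (ρ j ^ 2 - σ k ^ 2) * y k = ε) :
    ∃ ζ : ℕ → ℝ, (∀ k < n + 1, |ζ k| ≤ σ k) ∧
      WW σ (n + 1) r ε y = C ε * ∏ k ∈ range (n + 1), ((X + C (ρ k)) * (X + C (ζ k))) := by
  set W := WW σ (n + 1) r ε y with hW
  have h1 : ∀ j < n + 1, W.eval (-ρ j) = 0 := by
    intro j hj
    rw [hW, WW_eval, ← hy j hj, sum_mul, ← sum_add_distrib]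
    refine sum_eq_zero fun k hk => ?_
    rw [← mul_prod_erase _ _ hk, neg_sq]
    have := h.sq_ne j k
    field_simp
    ring
  have h2 : ∏ j ∈ range (n + 1), (X + C (ρ j)) ∣ W := by
    refine prod_dvd_of_coprime (fun i _ j _ hij => ?_) fun j hj => ?_
    · have : IsUnit (-ρ i - -ρ j) := by
        refine IsUnit.mk0 _ fun h0 => hij (h.rho_anti.injective (by linarith))
      simpa using isCoprime_X_sub_C_of_isUnit_sub this
    · have := (dvd_iff_isRoot (p := W) (a := -ρ j)).mpr (h1 j (mem_range.mp hj))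
      rwa [map_neg, sub_neg_eq_add] at this
  obtain ⟨V, hV⟩ := h2
  obtain ⟨ζ, h3, V', h4⟩ := root_extract (n + 1) (fun k => if k < n + 1 then σ k else 0)
    ((-1) ^ (n + 1)) V (by positivity) (by
      intro i j hij hj
      rw [if_pos (show i < n + 1 by omega)]
      split_ifs
      · exact h.sigma_anti hij
      · exact h.pos i) (by simp) (by
      intro k hk
      split_ifs with hk'
      · have e1 := WW_eval_sigma σ r ε y hk' (x := σ k) rfl
        have e2 := WW_eval_sigma σ r ε y hk' (x := -σ k) (neg_sq _)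
        have e3 : W.eval (σ k) * W.eval (-σ k) ≤ 0 := by
          rw [hW, e1, e2]
          have : 0 ≤ (1 - r ^ 2) * (y k * σ k *
              ∏ l ∈ (range (n + 1)).erase k, (σ k ^ 2 - σ l ^ 2)) ^ 2 :=
            mul_nonneg (by nlinarith) (sq_nonneg _)
          nlinarith
        have e4 : W.eval (σ k) * W.eval (-σ k) =
            (∏ j ∈ range (n + 1), (ρ j ^ 2 - σ k ^ 2)) * (V.eval (σ k) * V.eval (-σ k)) := by
          rw [hV]
          simp only [eval_mul, eval_prod, eval_add, eval_X, eval_C]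
          rw [mul_mul_mul_comm, ← prod_mul_distrib]
          congr 1
          exact prod_congr rfl fun j _ => by ring
        have e5 := h.sign_prod hk'
        refine nonneg_of_mul_nonneg_right ?_ e5
        have e6 : ((-1 : ℝ) ^ (n + 1 + k)) ^ 2 = 1 := by
          rw [← pow_mul, mul_comm, pow_mul]; simp
        have e7 : (-1 : ℝ) ^ (n + 1 + k + 1) * (∏ j ∈ range (n + 1), (ρ j ^ 2 - σ k ^ 2)) *
            ((-1) ^ k * (-1) ^ (n + 1) * (V.eval (σ k) * V.eval (-σ k))) =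
            -(((-1 : ℝ) ^ (n + 1 + k)) ^ 2 * (W.eval (σ k) * W.eval (-σ k))) := by
          rw [e4]; ring
        rw [e7, e6]; linarith
      · obtain rfl : k = n + 1 := by omega
        rw [← mul_pow, neg_zero]
        simpa using mul_self_nonneg (V.eval 0))
  refine ⟨ζ, fun k hk => by simpa [hk] using h3 k hk, ?_⟩
  obtain ⟨p1, p2, -⟩ := pair_prod (range (n + 1)) ρ ζ
  rw [card_range] at p2
  have h5 : W = (∏ k ∈ range (n + 1), ((X + C (ρ k)) * (X + C (ζ k)))) * V' := by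
    rw [hV, h4, prod_mul_distrib, mul_assoc]
  obtain ⟨c1, c2, -⟩ := WW_coeff σ n r ε y
  rw [← hW] at c1 c2
  have h6 : V' = C (V'.coeff 0) := by
    by_cases h0 : V' = 0
    · simp [h0]
    · apply eq_C_of_natDegree_le_zero
      rw [h5, p1.natDegree_mul' h0, p2] at c1
      omega
  rw [h6, mul_comm] at h5
  have h7 : V'.coeff 0 = ε := by
    have := p1.coeff_natDegree
    rw [p2] at this
    rw [h5, coeff_C_mul, show 2 * n + 2 = 2 * (n + 1) by ring, this, mul_one] at c2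
    exact c2
  rw [h5, h7]

theorem solution_zero {ρ σ : ℕ → ℝ} (h : Inter ρ σ) (n : ℕ) {r : ℝ} (hr0 : 0 ≤ r) (hr1 : r < 1)
    (y : ℕ → ℝ) (hy : ∀ j < n + 1,
      ∑ k ∈ range (n + 1), (ρ j - r * σ k) / (ρ j ^ 2 - σ k ^ 2) * y k = 0) :
    ∀ k < n + 1, y k = 0 := by
  obtain ⟨ζ, -, h2⟩ := structure_thm h n hr0 hr1 y hy
  intro k hk
  have e1 := WW_eval_sigma σ r 0 y hk (x := σ k) rfl
  rw [h2] at e1
  simp only [map_zero, zero_mul, eval_zero] at e1
  have h3 : σ k + r * σ k ≠ 0 := by have := h.pos k; positivity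
  have h4 : ∏ l ∈ (range (n + 1)).erase k, (σ k ^ 2 - σ l ^ 2) ≠ 0 := by
    refine prod_ne_zero_iff.mpr fun l hl h0 => (mem_erase.mp hl).1 (h.sigma_anti.injective ?_)
    have := h.pos k
    have := h.pos l
    nlinarith
  exact (mul_eq_zero.mp e1.symm).resolve_right (mul_ne_zero h3 h4)

theorem solution_one {ρ σ : ℕ → ℝ} (h : Inter ρ σ) (n : ℕ) {r : ℝ} (hr0 : 0 ≤ r) (hr1 : r < 1)
    (y : ℕ → ℝ) (hy : ∀ j < n + 1,
      ∑ k ∈ range (n + 1), (ρ j - r * σ k) / (ρ j ^ 2 - σ k ^ 2) * y k = 1) :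
    ∃ ζ : ℕ → ℝ, (∀ k < n + 1, |ζ k| ≤ σ k) ∧
      (∀ k < n + 1, (1 + r) * ∏ j ∈ range (n + 1), ((ρ j - σ k) * (ζ j - σ k)) =
        -(1 - r) * ∏ j ∈ range (n + 1), ((ρ j + σ k) * (ζ j + σ k))) ∧
      ∑ k ∈ range (n + 1), y k = ∑ k ∈ range (n + 1), (ρ k + ζ k) := by
  obtain ⟨ζ, h1, h2⟩ := structure_thm h n hr0 hr1 y hy
  rw [map_one, one_mul] at h2
  refine ⟨ζ, h1, fun k hk => ?_, ?_⟩
  · have e1 := WW_eval_sigma σ r 1 y hk (x := σ k) rfl
    have e2 := WW_eval_sigma σ r 1 y hk (x := -σ k) (neg_sq _)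
    rw [h2] at e1 e2
    simp only [eval_prod, eval_mul, eval_add, eval_X, eval_C] at e1 e2
    have e3 : ∏ j ∈ range (n + 1), ((ρ j - σ k) * (ζ j - σ k)) =
        ∏ j ∈ range (n + 1), ((-σ k + ρ j) * (-σ k + ζ j)) := prod_congr rfl fun j _ => by ring
    have e4 : ∏ j ∈ range (n + 1), ((ρ j + σ k) * (ζ j + σ k)) =
        ∏ j ∈ range (n + 1), ((σ k + ρ j) * (σ k + ζ j)) := prod_congr rfl fun j _ => by ring
    rw [e3, e4, e1, e2]; ring
  · rw [← (WW_coeff σ n r 1 y).2.2, h2, pair_prod_coeff]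

end Pool.Agent.P.MP_ee8931_an
end

-- part Pool.Agent.P.MP_ee8931_an.Ineq
section

/-! Uniform estimates for the numbers `ζ_k`. -/

namespace Pool.Agent.P.MP_ee8931_an

open Finset

def Cfg (ρ σ : ℕ → ℝ) (N : ℕ) (η : ℝ) (ζ : ℕ → ℝ) : Prop :=
  (∀ k < N, |ζ k| ≤ σ k) ∧ ∀ k < N, ∏ j ∈ range N, ((ρ j - σ k) * (ζ j - σ k)) =
    -η * ∏ j ∈ range N, ((ρ j + σ k) * (ζ j + σ k))

noncomputable def gam (ρ σ : ℕ → ℝ) (k : ℕ) : ℝ := min ((ρ k - σ k) ^ 2) ((σ k - ρ (k + 1)) ^ 2)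

noncomputable def KK (ρ σ : ℕ → ℝ) (M : ℝ) (k : ℕ) : ℝ :=
  2 * σ k * (ρ k + σ k) * Real.exp (2 * σ k * M / gam ρ σ k) / (ρ k - σ k)

variable {ρ σ : ℕ → ℝ} {N : ℕ} {η : ℝ} {ζ : ℕ → ℝ}

theorem gam_pos (h : Inter ρ σ) (k : ℕ) : 0 < gam ρ σ k :=
  lt_min (pow_pos (sub_pos.mpr (h.lt1 k)) 2) (pow_pos (sub_pos.mpr (h.lt2 k)) 2)

theorem KK_pos (h : Inter ρ σ) (M : ℝ) (k : ℕ) : 0 < KK ρ σ M k := by
  have := h.pos k
  have := h.rho_pos k
  have := sub_pos.mpr (h.lt1 k)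
  unfold KK
  positivity

theorem t_pos (h : Inter ρ σ) (hc : Cfg ρ σ N η ζ) {j : ℕ} (hj : j < N) : 0 < ρ j + ζ j := by
  have := (abs_le.mp (hc.1 j hj)).1
  have := h.lt1 j
  linarith

theorem a_lower (h : Inter ρ σ) (hc : Cfg ρ σ N η ζ) {k : ℕ} (hp : ∀ j < k, ρ (j + 1) ≤ ζ j)
    {j : ℕ} (hj : j ∈ (range N).erase k) : gam ρ σ k ≤ (ρ j - σ k) * (ζ j - σ k) := by
  obtain ⟨hjk, hjN⟩ := mem_erase.mp hj
  rcases lt_or_gt_of_ne hjk with hlt | hlt
  · have h1 := h.rho_anti.antitone hlt.le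
    have h2 := h.rho_anti.antitone (show j + 1 ≤ k from hlt)
    have h3 := hp j hlt
    have h4 := sub_pos.mpr (h.lt1 k)
    refine (min_le_left _ _).trans ?_
    rw [sq]
    exact mul_le_mul (by linarith) (by linarith) h4.le (by linarith)
  · have h1 := h.rho_anti.antitone (show k + 1 ≤ j from hlt)
    have h2 := (abs_le.mp (hc.1 j (mem_range.mp hjN))).2
    have h3 := h.lt1 j
    have h4 := sub_pos.mpr (h.lt2 k)
    refine (min_le_right _ _).trans ?_
    rw [sq, show (ρ j - σ k) * (ζ j - σ k) = (σ k - ρ j) * (σ k - ζ j) by ring]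
    exact mul_le_mul (by linarith) (by linarith) h4.le (by linarith)

theorem split_eq (hc : Cfg ρ σ N η ζ) {k : ℕ} (hk : k < N) :
    (ρ k - σ k) * (σ k - ζ k) * ∏ j ∈ (range N).erase k, ((ρ j - σ k) * (ζ j - σ k)) =
      η * ((ρ k + σ k) * (ζ k + σ k)) *
        ∏ j ∈ (range N).erase k, ((ρ j + σ k) * (ζ j + σ k)) := by
  have := hc.2 k hk
  rw [← mul_prod_erase _ _ (mem_range.mpr hk), ← mul_prod_erase _ _ (mem_range.mpr hk)] at this
  linear_combination -this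

theorem zeta_upper (h : Inter ρ σ) (hc : Cfg ρ σ N η ζ) (hη : 0 ≤ η) {M : ℝ}
    (hM : ∑ j ∈ range N, (ρ j + ζ j) ≤ M) {k : ℕ} (hk : k < N)
    (hp : ∀ j < k, ρ (j + 1) ≤ ζ j) : σ k - ζ k ≤ η * KK ρ σ M k := by
  have hγ := gam_pos h k
  have hσ := h.pos k
  have hA : 0 < ∏ j ∈ (range N).erase k, ((ρ j - σ k) * (ζ j - σ k)) :=
    prod_pos fun j hj => hγ.trans_le (a_lower h hc hp hj)
  have h1 : ∏ j ∈ (range N).erase k, ((ρ j + σ k) * (ζ j + σ k)) ≤
      ∏ j ∈ (range N).erase k, ((ρ j - σ k) * (ζ j - σ k) *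
        Real.exp (2 * σ k * (ρ j + ζ j) / gam ρ σ k)) := by
    refine prod_le_prod (fun j hj => ?_) fun j hj => ?_
    · have h2 := a_lower h hc hp hj
      have h3 := t_pos h hc (mem_range.mp (mem_erase.mp hj).2)
      nlinarith [mul_pos hσ h3]
    · have h2 := a_lower h hc hp hj
      have h3 := t_pos h hc (mem_range.mp (mem_erase.mp hj).2)
      have h4 := Real.add_one_le_exp (2 * σ k * (ρ j + ζ j) / gam ρ σ k)
      have h5 : 0 ≤ 2 * σ k * (ρ j + ζ j) / gam ρ σ k := by positivity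
      have h6 : gam ρ σ k * (2 * σ k * (ρ j + ζ j) / gam ρ σ k) = 2 * σ k * (ρ j + ζ j) := by
        field_simp
      calc (ρ j + σ k) * (ζ j + σ k)
          = (ρ j - σ k) * (ζ j - σ k) + gam ρ σ k * (2 * σ k * (ρ j + ζ j) / gam ρ σ k) := by
            rw [h6]; ring
        _ ≤ (ρ j - σ k) * (ζ j - σ k) * (2 * σ k * (ρ j + ζ j) / gam ρ σ k + 1) := by
            nlinarith [mul_le_mul_of_nonneg_right h2 h5]
        _ ≤ _ := mul_le_mul_of_nonneg_left h4 (hγ.le.trans h2)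
  rw [prod_mul_distrib (f := fun j => (ρ j - σ k) * (ζ j - σ k)), ← Real.exp_sum] at h1
  have h2 : ∑ j ∈ (range N).erase k, 2 * σ k * (ρ j + ζ j) / gam ρ σ k ≤
      2 * σ k * M / gam ρ σ k := by
    rw [← sum_div, ← mul_sum]
    refine div_le_div_of_nonneg_right (mul_le_mul_of_nonneg_left (le_trans ?_ hM) (by positivity))
      hγ.le
    exact sum_le_sum_of_subset_of_nonneg (erase_subset _ _) fun j hj _ =>
      (t_pos h hc (mem_range.mp hj)).le
  have h3 := h1.trans (mul_le_mul_of_nonneg_left (Real.exp_le_exp.mpr h2) hA.le)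
  have h4 := split_eq hc hk
  obtain ⟨h5, h6⟩ := abs_le.mp (hc.1 k hk)
  have h7 := h.rho_pos k
  have h8 := sub_pos.mpr (h.lt1 k)
  set A := ∏ j ∈ (range N).erase k, ((ρ j - σ k) * (ζ j - σ k))
  set B := ∏ j ∈ (range N).erase k, ((ρ j + σ k) * (ζ j + σ k))
  set E := Real.exp (2 * σ k * M / gam ρ σ k) with hE
  have hE0 : 0 < E := Real.exp_pos _
  have h9 : (ρ k - σ k) * (σ k - ζ k) * A ≤ η * (2 * σ k * (ρ k + σ k) * E) * A := by
    rw [h4]
    calc η * ((ρ k + σ k) * (ζ k + σ k)) * B ≤ η * ((ρ k + σ k) * (ζ k + σ k)) * (A * E) :=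
          mul_le_mul_of_nonneg_left h3 (mul_nonneg hη (mul_nonneg (by positivity) (by linarith)))
      _ ≤ η * ((ρ k + σ k) * (σ k + σ k)) * (A * E) := by gcongr
      _ = _ := by ring
  have h10 := le_of_mul_le_mul_right h9 hA
  rw [KK, ← hE, ← mul_div_assoc, le_div_iff₀ h8]
  linarith

theorem zeta_lower (h : Inter ρ σ) (hc : Cfg ρ σ N η ζ) (hη : 0 ≤ η) {k : ℕ} (hk : k < N)
    (hp : ∀ j < k, ρ (j + 1) ≤ ζ j) (h0 : 0 ≤ ζ k) :
    η * (ρ k * σ k / (ρ k - σ k)) ≤ σ k - ζ k := by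
  have hγ := gam_pos h k
  have hσ := h.pos k
  have hA : 0 < ∏ j ∈ (range N).erase k, ((ρ j - σ k) * (ζ j - σ k)) :=
    prod_pos fun j hj => hγ.trans_le (a_lower h hc hp hj)
  have h1 : ∏ j ∈ (range N).erase k, ((ρ j - σ k) * (ζ j - σ k)) ≤
      ∏ j ∈ (range N).erase k, ((ρ j + σ k) * (ζ j + σ k)) := by
    refine prod_le_prod (fun j hj => hγ.le.trans (a_lower h hc hp hj)) fun j hj => ?_
    have h3 := t_pos h hc (mem_range.mp (mem_erase.mp hj).2)
    nlinarith [mul_pos hσ h3]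
  have h4 := split_eq hc hk
  have h7 := h.rho_pos k
  have h8 := sub_pos.mpr (h.lt1 k)
  set A := ∏ j ∈ (range N).erase k, ((ρ j - σ k) * (ζ j - σ k))
  set B := ∏ j ∈ (range N).erase k, ((ρ j + σ k) * (ζ j + σ k))
  have h9 : η * (ρ k * σ k) * A ≤ (ρ k - σ k) * (σ k - ζ k) * A := by
    rw [h4]
    calc η * (ρ k * σ k) * A ≤ η * ((ρ k + σ k) * (ζ k + σ k)) * A := by
          gcongr <;> linarith
      _ ≤ _ := mul_le_mul_of_nonneg_left h1 (by positivity)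
  have h10 := le_of_mul_le_mul_right h9 hA
  rw [← mul_div_assoc, div_le_iff₀ h8]
  linarith

theorem exists_eta (h : Inter ρ σ) (M : ℝ) (m : ℕ) : ∃ η₀ > 0, ∀ (N : ℕ) (η : ℝ) (ζ : ℕ → ℝ),
    Cfg ρ σ N η ζ → 0 ≤ η → η ≤ η₀ → ∑ j ∈ range N, (ρ j + ζ j) ≤ M → m ≤ N →
    ∀ j < m, ρ (j + 1) ≤ ζ j := by
  induction m with
  | zero => exact ⟨1, one_pos, by simp⟩
  | succ m ih =>
    obtain ⟨η₀, h0, h1⟩ := ih
    have hK := KK_pos h M m
    have hd := sub_pos.mpr (h.lt2 m)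
    refine ⟨min η₀ ((σ m - ρ (m + 1)) / KK ρ σ M m), lt_min h0 (div_pos hd hK), ?_⟩
    intro N η ζ hc hη hη' hM hm j hj
    have h2 := h1 N η ζ hc hη (hη'.trans (min_le_left _ _)) hM (by omega)
    rcases Nat.lt_succ_iff_lt_or_eq.mp hj with hj' | rfl
    · exact h2 j hj'
    · have h3 := zeta_upper h hc hη hM (show j < N by omega) h2
      have h4 := (le_div_iff₀ hK).mp (hη'.trans (min_le_right _ _))
      linarith

theorem sum_bounds (h : Inter ρ σ) (M : ℝ) (m : ℕ) : ∃ η₀ > 0, ∃ K > 0,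
    ∀ (N : ℕ) (η : ℝ) (ζ : ℕ → ℝ), Cfg ρ σ N η ζ → 0 ≤ η → η ≤ η₀ →
    ∑ j ∈ range N, (ρ j + ζ j) ≤ M → m ≤ N →
    ∑ j ∈ range m, (ρ j + σ j) - η * K ≤ ∑ j ∈ range N, (ρ j + ζ j) ∧
    ∑ j ∈ range N, (ρ j + ζ j) ≤ ∑ j ∈ range N, (ρ j + σ j) -
      η * ∑ j ∈ range m, ρ j * σ j / (ρ j - σ j) := by
  obtain ⟨η₀, h0, h1⟩ := exists_eta h M m
  have hK : 0 ≤ ∑ j ∈ range m, KK ρ σ M j := sum_nonneg fun j _ => (KK_pos h M j).le
  refine ⟨η₀, h0, ∑ j ∈ range m, KK ρ σ M j + 1, by linarith, ?_⟩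
  intro N η ζ hc hη hη' hM hm
  have h2 := h1 N η ζ hc hη hη' hM hm
  have hsub : range m ⊆ range N := range_subset_range.mpr hm
  constructor
  · have h3 : ∑ j ∈ range m, (ρ j + ζ j) ≤ ∑ j ∈ range N, (ρ j + ζ j) :=
      sum_le_sum_of_subset_of_nonneg hsub fun j hj _ => (t_pos h hc (mem_range.mp hj)).le
    have h4 : ∑ j ∈ range m, (ρ j + σ j) ≤ ∑ j ∈ range m, ((ρ j + ζ j) + η * KK ρ σ M j) := by
      refine sum_le_sum fun j hj => ?_
      have hj' := mem_range.mp hj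
      have := zeta_upper h hc hη hM (show j < N by omega) fun i hi => h2 i (by omega)
      linarith
    rw [sum_add_distrib (f := fun j => ρ j + ζ j), ← mul_sum] at h4
    nlinarith
  · have h3 : ∑ j ∈ range m, (σ j - ζ j) ≤ ∑ j ∈ range N, (σ j - ζ j) :=
      sum_le_sum_of_subset_of_nonneg hsub fun j hj _ =>
        sub_nonneg.mpr (abs_le.mp (hc.1 j (mem_range.mp hj))).2
    have h4 : ∑ j ∈ range m, η * (ρ j * σ j / (ρ j - σ j)) ≤ ∑ j ∈ range m, (σ j - ζ j) := by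
      refine sum_le_sum fun j hj => ?_
      have hj' := mem_range.mp hj
      exact zeta_lower h hc hη (show j < N by omega) (fun i hi => h2 i (by omega))
        ((h.rho_pos _).le.trans (h2 j hj'))
    rw [← mul_sum] at h4
    have h5 : ∑ j ∈ range N, (ρ j + σ j) =
        ∑ j ∈ range N, (ρ j + ζ j) + ∑ j ∈ range N, (σ j - ζ j) := by
      rw [← sum_add_distrib]; exact sum_congr rfl fun j _ => by ring
    linarith

/-- If the limit function is Lipschitz near `1`, the series defining `D` converges. -/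
theorem summable_of_lipschitz (h : Inter ρ σ) (u : ℕ → ℝ → ℝ) (φ : ℝ → ℝ) {L : ℝ} (hL0 : 0 ≤ L)
    (hu : ∀ N r, 1 / 2 ≤ r → r < 1 → ∃ ζ, Cfg ρ σ (N + 1) ((1 - r) / (1 + r)) ζ ∧
      u N r = ∑ j ∈ range (N + 1), (ρ j + ζ j))
    (hlim : ∀ r, 1 / 2 ≤ r → r < 1 → Filter.Tendsto (fun N => u N r) Filter.atTop (nhds (φ r)))
    (hL : ∀ r r', 1 / 2 ≤ r → r ≤ r' → r' < 1 → φ r' ≤ φ r + L * (1 - r)) :
    Summable fun j => ρ j * σ j / (ρ j - σ j) := by
  set M := φ (1 / 2) + L + 1 with hM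
  have hev : ∀ r, 1 / 2 ≤ r → r < 1 → ∀ᶠ N in Filter.atTop, u N r ≤ M := by
    intro r h1 h2
    have h3 := hL (1 / 2) r le_rfl h1 h2
    exact ((hlim r h1 h2).eventually (gt_mem_nhds (show φ r < M by linarith))).mono
      fun N hN => hN.le
  have heta : ∀ r : ℝ, 1 / 2 ≤ r → r < 1 →
      (1 - r) / 2 ≤ (1 - r) / (1 + r) ∧ (1 - r) / (1 + r) ≤ 1 - r := by
    intro r h1 h2
    exact ⟨div_le_div_of_nonneg_left (by linarith) (by linarith) (by linarith),
      div_le_self (by linarith) (by linarith)⟩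
  have ha : ∀ m r, 1 / 2 ≤ r → r < 1 → ∑ j ∈ range m, (ρ j + σ j) ≤ φ r + L * (1 - r) := by
    intro m r h1 h2
    obtain ⟨η₀, h0, K, hK, hb⟩ := sum_bounds h M m
    refine le_of_forall_pos_le_add fun ε hε => ?_
    set δ := min (1 - r) (min η₀ (ε / K)) with hδ
    have d0 : 0 < δ := lt_min (by linarith) (lt_min h0 (div_pos hε hK))
    have d1 : δ ≤ 1 - r := min_le_left _ _
    have d2 : δ ≤ η₀ := (min_le_right _ _).trans (min_le_left _ _)
    have d3 : δ * K ≤ ε := (le_div_iff₀ hK).mp ((min_le_right _ _).trans (min_le_right _ _))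
    have r1 : 1 / 2 ≤ 1 - δ := by linarith
    have r2 : 1 - δ < 1 := by linarith
    obtain ⟨e1, e2⟩ := heta _ r1 r2
    have h3 : ∑ j ∈ range m, (ρ j + σ j) - ε ≤ φ (1 - δ) := by
      refine ge_of_tendsto (hlim _ r1 r2) ?_
      filter_upwards [hev _ r1 r2, Filter.eventually_ge_atTop m] with N hN hm
      obtain ⟨ζ, hc, he⟩ := hu N _ r1 r2
      have := (hb _ _ ζ hc (by linarith) (by linarith) (he ▸ hN) (by omega)).1
      rw [he]
      nlinarith
    have h4 := hL r (1 - δ) h1 (by linarith) r2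
    linarith
  refine summable_of_sum_range_le (c := 2 * L) (fun j => ?_) fun m => ?_
  · have := h.pos j
    have := h.rho_pos j
    have := sub_pos.mpr (h.lt1 j)
    positivity
  · obtain ⟨η₀, h0, K, hK, hb⟩ := sum_bounds h M m
    set δ := min (1 / 2) η₀ with hδ
    have d0 : 0 < δ := lt_min (by norm_num) h0
    have d1 : δ ≤ 1 / 2 := min_le_left _ _
    have d2 : δ ≤ η₀ := min_le_right _ _
    have r1 : 1 / 2 ≤ 1 - δ := by linarith
    have r2 : 1 - δ < 1 := by linarith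
    obtain ⟨e1, e2⟩ := heta _ r1 r2
    set D := ∑ j ∈ range m, ρ j * σ j / (ρ j - σ j) with hD
    have hD0 : 0 ≤ D := sum_nonneg fun j _ => by
      have := h.pos j
      have := h.rho_pos j
      have := sub_pos.mpr (h.lt1 j)
      positivity
    have h3 : φ (1 - δ) ≤ φ (1 - δ) + L * δ - δ / 2 * D := by
      refine le_of_tendsto (hlim _ r1 r2) ?_
      filter_upwards [hev _ r1 r2, Filter.eventually_ge_atTop m] with N hN hm
      obtain ⟨ζ, hc, he⟩ := hu N _ r1 r2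
      have h4 := (hb _ _ ζ hc (by linarith) (by linarith) (he ▸ hN) (by omega)).2
      have h5 := ha (N + 1) _ r1 r2
      rw [he]
      have h6 : δ / 2 * D ≤ (1 - (1 - δ)) / (1 + (1 - δ)) * D :=
        mul_le_mul_of_nonneg_right (by linarith) hD0
      linarith
    have h7 : δ * D ≤ δ * (2 * L) := by linarith
    exact le_of_mul_le_mul_left h7 d0

end Pool.Agent.P.MP_ee8931_an
end

-- part Pool.Agent.P.MP_ee8931_an.Analytic
section

/-! A `C^1` function with vanishing negative Fourier coefficients has a power series which is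
Lipschitz along the radius. -/

namespace Pool.Agent.P.MP_ee8931_an

open Complex Real MeasureTheory intervalIntegral

noncomputable def II (g : ℝ → ℂ) (n : ℤ) : ℂ := ∫ x in (0 : ℝ)..2 * π, cexp (-(n * x * I)) * g x

theorem coeff_eq (g : ℝ → ℂ) (n : ℤ) :
    fourierCoeffOn Real.two_pi_pos g n = (1 / (2 * π) : ℂ) * II g n := by
  rw [fourierCoeffOn_eq_integral, II, Complex.real_smul]
  congr 1
  · push_cast; simp
  · congr 1
    ext x
    rw [fourier_coe_apply, smul_eq_mul]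
    congr 2
    have : (π : ℂ) ≠ 0 := by exact_mod_cast Real.pi_ne_zero
    push_cast
    rw [sub_zero]
    field_simp

theorem norm_cexp (s : ℤ) (x : ℝ) : ‖cexp (-(s * x * I))‖ = 1 := by
  have : (-(s * x * I) : ℂ) = ((-(s * x) : ℝ) : ℂ) * I := by push_cast; ring
  rw [this, Complex.norm_exp_ofReal_mul_I]

theorem hasSum_II {g : ℝ → ℂ} (hg : Continuous g) {r : ℝ} (hr0 : 0 ≤ r) (hr1 : r < 1) (s : ℤ) :
    HasSum (fun n : ℕ => (r : ℂ) ^ n * II g (s * n))
      (∫ x in (0 : ℝ)..2 * π, (1 - r * cexp (-(s * x * I)))⁻¹ * g x) := by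
  have h1 : ∀ n : ℕ, (r : ℂ) ^ n * II g (s * n) =
      ∫ x in (0 : ℝ)..2 * π, (r * cexp (-(s * x * I))) ^ n * g x := by
    intro n
    rw [II, ← intervalIntegral.integral_const_mul]
    congr 1
    ext x
    rw [mul_pow, ← Complex.exp_nat_mul, mul_assoc ((r : ℂ) ^ n)]
    congr 3
    push_cast; ring
  simp_rw [h1]
  have hn : ∀ x : ℝ, ‖(r * cexp (-(s * x * I)) : ℂ)‖ = r := by
    intro x
    rw [norm_mul, norm_cexp, Complex.norm_real, Real.norm_of_nonneg hr0, mul_one]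
  refine intervalIntegral.hasSum_integral_of_dominated_convergence (fun n x => r ^ n * ‖g x‖)
    (fun n => Continuous.aestronglyMeasurable (by fun_prop)) (fun n => ae_of_all _ fun x _ => ?_)
    (ae_of_all _ fun x _ => (summable_geometric_of_lt_one hr0 hr1).mul_right _) ?_
    (ae_of_all _ fun x _ => ?_)
  · rw [norm_mul, norm_pow, hn]
  · simp_rw [tsum_mul_right]
    exact Continuous.intervalIntegrable (by fun_prop) _ _
  · have h2 : ‖(r * cexp (-(s * x * I)) : ℂ)‖ < 1 := by rw [hn]; exact hr1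
    have h3 := (hasSum_geometric_of_norm_lt_one h2).mul_right (g x)
    exact h3

noncomputable def PK (r x : ℝ) : ℝ := (1 - r ^ 2) / (1 - 2 * r * Real.cos x + r ^ 2)

theorem den_pos {r : ℝ} (hr0 : 0 ≤ r) (hr1 : r < 1) (x : ℝ) : 0 < 1 - 2 * r * Real.cos x + r ^ 2 := by
  nlinarith [Real.cos_le_one x, mul_pos (sub_pos.mpr hr1) (sub_pos.mpr hr1)]

theorem PK_nonneg {r : ℝ} (hr0 : 0 ≤ r) (hr1 : r < 1) (x : ℝ) : 0 ≤ PK r x :=
  div_nonneg (by nlinarith) (den_pos hr0 hr1 x).le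

theorem PK_cont {r : ℝ} (hr0 : 0 ≤ r) (hr1 : r < 1) : Continuous (PK r) :=
  continuous_const.div (by fun_prop) fun x => (den_pos hr0 hr1 x).ne'

theorem ker_ne {r : ℝ} (hr0 : 0 ≤ r) (hr1 : r < 1) (s : ℤ) (x : ℝ) :
    (1 - r * cexp (-(s * x * I)) : ℂ) ≠ 0 := by
  intro h
  have h1 : ‖(r * cexp (-(s * x * I)) : ℂ)‖ = r := by
    rw [norm_mul, norm_cexp, Complex.norm_real, Real.norm_of_nonneg hr0, mul_one]
  rw [← sub_eq_zero.mp h, norm_one] at h1
  linarith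

theorem PK_eq {r : ℝ} (hr0 : 0 ≤ r) (hr1 : r < 1) (x : ℝ) :
    (PK r x : ℂ) = (1 - r * cexp (-((1 : ℤ) * x * I)))⁻¹ +
      (1 - r * cexp (-((-1 : ℤ) * x * I)))⁻¹ - 1 := by
  have h1 := ker_ne hr0 hr1 1 x
  have h2 := ker_ne hr0 hr1 (-1) x
  have h3 : cexp (-((1 : ℤ) * x * I)) * cexp (-((-1 : ℤ) * x * I)) = 1 := by
    rw [← Complex.exp_add]; simp
  have h4 : cexp (-((1 : ℤ) * x * I)) + cexp (-((-1 : ℤ) * x * I)) = 2 * Real.cos x := by
    rw [Complex.ofReal_cos, Complex.two_cos]; simp [add_comm]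
  have h5 : ((1 - 2 * r * Real.cos x + r ^ 2 : ℝ) : ℂ) ≠ 0 := by
    exact_mod_cast (den_pos hr0 hr1 x).ne'
  generalize cexp (-((1 : ℤ) * x * I)) = a at *
  generalize cexp (-((-1 : ℤ) * x * I)) = b at *
  have h6 : ((1 - 2 * r * Real.cos x + r ^ 2 : ℝ) : ℂ) = (1 - r * a) * (1 - r * b) := by
    rw [Complex.ofReal_add, Complex.ofReal_sub, Complex.ofReal_mul, Complex.ofReal_mul]
    push_cast [-Complex.ofReal_cos]
    linear_combination r * h4 - r ^ 2 * h3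
  rw [PK, Complex.ofReal_div, h6]
  push_cast
  field_simp
  linear_combination r ^ 2 * h3

theorem hasSum_poisson {g : ℝ → ℂ} (hg : Continuous g) (hneg : ∀ n : ℤ, n < 0 → II g n = 0)
    {r : ℝ} (hr0 : 0 ≤ r) (hr1 : r < 1) :
    HasSum (fun n : ℕ => (r : ℂ) ^ n * II g n) (∫ x in (0 : ℝ)..2 * π, PK r x * g x) := by
  have h1 := hasSum_II hg hr0 hr1 1
  have h2 := hasSum_II hg hr0 hr1 (-1)
  have h3 : HasSum (fun n : ℕ => (r : ℂ) ^ n * II g ((-1 : ℤ) * n))
      (∫ x in (0 : ℝ)..2 * π, g x) := by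
    convert hasSum_single (f := fun n : ℕ => (r : ℂ) ^ n * II g ((-1 : ℤ) * n)) 0 ?_ using 1
    · simp [II]
    · intro n hn
      rw [hneg _ (by omega), mul_zero]
  have h4 := h2.unique h3
  have c : ∀ s : ℤ, IntervalIntegrable
      (fun x : ℝ => (1 - r * cexp (-(s * x * I)))⁻¹ * g x) volume 0 (2 * π) := fun s =>
    ((Continuous.inv₀ (by fun_prop) (ker_ne hr0 hr1 s)).mul hg).intervalIntegrable _ _
  simp only [one_mul] at h1
  convert h1 using 1
  simp_rw [PK_eq hr0 hr1, sub_mul, add_mul, one_mul]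
  rw [intervalIntegral.integral_sub ((c 1).add (c (-1))) (hg.intervalIntegrable _ _),
    intervalIntegral.integral_add (c 1) (c (-1)), h4]
  simp

theorem II_one {n : ℤ} (hn : n ≠ 0) : II (fun _ => 1) n = 0 := by
  have h : (-(n * I) : ℂ) ≠ 0 := neg_ne_zero.mpr (mul_ne_zero (by exact_mod_cast hn) I_ne_zero)
  have : ∀ x : ℝ, cexp (-(n * x * I)) * 1 = cexp (-(n * I) * x) := fun x => by
    rw [mul_one]; congr 1; ring
  simp_rw [II, this]
  rw [integral_exp_mul_complex h]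
  have e : (-(n * I) * ((2 * π : ℝ) : ℂ)) = ((-n : ℤ) : ℂ) * (2 * π * I) := by push_cast; ring
  rw [e, Complex.exp_int_mul_two_pi_mul_I]
  simp

theorem integral_PK {r : ℝ} (hr0 : 0 ≤ r) (hr1 : r < 1) :
    ∫ x in (0 : ℝ)..2 * π, PK r x = 2 * π := by
  have h1 := hasSum_poisson (g := fun _ => 1) continuous_const (fun n hn => II_one hn.ne) hr0 hr1
  have h2 : HasSum (fun n : ℕ => (r : ℂ) ^ n * II (fun _ => 1) n) (2 * π) := by
    convert hasSum_single (f := fun n : ℕ => (r : ℂ) ^ n * II (fun _ => 1) n) 0 ?_ using 1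
    · simp [II]
    · intro n hn
      rw [II_one (by exact_mod_cast hn), mul_zero]
  have h3 := h1.unique h2
  simp only [mul_one] at h3
  rw [intervalIntegral.integral_ofReal] at h3
  exact_mod_cast h3

theorem poisson_bound {g : ℝ → ℂ} (hg : Continuous g) (hneg : ∀ n : ℤ, n < 0 → II g n = 0)
    {M : ℝ} (hM : ∀ x ∈ Set.Icc (0 : ℝ) (2 * π), ‖g x‖ ≤ M) {r : ℝ} (hr0 : 0 ≤ r) (hr1 : r < 1) :
    ‖∑' n : ℕ, (r : ℂ) ^ n * II g n‖ ≤ 2 * π * M := by
  have e : 2 * π * M = ∫ x in (0 : ℝ)..2 * π, PK r x * M := by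
    rw [intervalIntegral.integral_mul_const, integral_PK hr0 hr1]
  have hc := PK_cont hr0 hr1
  rw [(hasSum_poisson hg hneg hr0 hr1).tsum_eq, e]
  refine intervalIntegral.norm_integral_le_of_norm_le Real.two_pi_pos.le
    (ae_of_all _ fun x hx => ?_) (Continuous.intervalIntegrable (by fun_prop) _ _)
  rw [norm_mul, Complex.norm_real, Real.norm_of_nonneg (PK_nonneg hr0 hr1 x)]
  exact mul_le_mul_of_nonneg_left (hM x ⟨hx.1.le, hx.2⟩) (PK_nonneg hr0 hr1 x)

theorem II_deriv {f : ℝ → ℂ} (hf : ContDiff ℝ 1 f) (hp : Function.Periodic f (2 * π)) (n : ℤ) :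
    II (deriv f) n = n * I * II f n := by
  have hd : ∀ x, HasDerivAt f (deriv f x) x := fun x =>
    (hf.differentiable one_ne_zero x).hasDerivAt
  have hc : Continuous (deriv f) := hf.continuous_deriv le_rfl
  have he : ∀ x : ℝ, HasDerivAt (fun x : ℝ => cexp (-(n * x * I)))
      (cexp (-(n * x * I)) * (-(n * I))) x := fun x => by
    have : HasDerivAt (fun x : ℝ => (-(n * x * I) : ℂ)) (-(n * I)) x := by
      have := (((hasDerivAt_id x).ofReal_comp.const_mul (n : ℂ)).mul_const I).neg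
      rw [Complex.ofReal_one, mul_one] at this
      exact this
    exact this.cexp
  have := intervalIntegral.integral_mul_deriv_eq_deriv_mul (a := 0) (b := 2 * π)
    (fun x _ => he x) (fun x _ => hd x) (Continuous.intervalIntegrable (by fun_prop) _ _)
    (hc.intervalIntegrable _ _)
  rw [II, this, II, ← intervalIntegral.integral_const_mul]
  have e1 : f (2 * π) = f 0 := by simpa using hp 0
  have e2 : cexp (-(n * ((2 * π : ℝ) : ℂ) * I)) = 1 := by
    have e : (-(n * ((2 * π : ℝ) : ℂ) * I)) = ((-n : ℤ) : ℂ) * (2 * π * I) := by push_cast; ring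
    rw [e, Complex.exp_int_mul_two_pi_mul_I]
  rw [e1, e2]
  simp only [ofReal_zero, mul_zero, zero_mul, neg_zero, Complex.exp_zero, sub_self, zero_sub]
  rw [← intervalIntegral.integral_neg]
  congr 1
  ext x
  ring

theorem series_deriv {a : ℕ → ℂ} {B : ℝ} (hB : ∀ n, ‖a n‖ ≤ B) {r : ℝ} (hr0 : 0 < r)
    (hr1 : r < 1) :
    HasDerivAt (fun t : ℝ => ∑' n : ℕ, a n * (t : ℂ) ^ n)
      (∑' n : ℕ, a n * (n * (r : ℂ) ^ (n - 1))) r := by
  obtain ⟨q, hq1, hq2⟩ := exists_between hr1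
  have hq0 : 0 < q := hr0.trans hq1
  have hB0 : 0 ≤ B := (norm_nonneg _).trans (hB 0)
  have hq : ‖q‖ < 1 := by rwa [Real.norm_of_nonneg hq0.le]
  have hs0 : Summable fun n : ℕ => (n : ℝ) ^ 1 * q ^ n :=
    summable_pow_mul_geometric_of_norm_lt_one 1 hq
  have hs : Summable fun n : ℕ => B / q * ((n : ℝ) ^ 1 * q ^ n) := hs0.mul_left (B / q)
  have h1 : ∀ (n : ℕ) (y : ℝ), y ∈ Set.Ioo 0 q →
      HasDerivAt (fun t : ℝ => a n * (t : ℂ) ^ n) (a n * (n * (y : ℂ) ^ (n - 1))) y := by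
    intro n y _
    have h0 : HasDerivAt (fun t : ℝ => (t : ℂ) ^ n) (n * (y : ℂ) ^ (n - 1)) y :=
      (hasDerivAt_pow n (y : ℂ)).comp_ofReal
    exact h0.const_mul (a n)
  have h2 : ∀ (n : ℕ) (y : ℝ), y ∈ Set.Ioo 0 q →
      ‖a n * (n * (y : ℂ) ^ (n - 1))‖ ≤ B / q * ((n : ℝ) ^ 1 * q ^ n) := by
    intro n y hy
    rw [norm_mul, norm_mul, norm_pow, Complex.norm_real, Real.norm_of_nonneg hy.1.le,
      Complex.norm_natCast]
    cases n with
    | zero => simp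
    | succ n =>
      have h1 : y ^ n ≤ q ^ n := pow_le_pow_left₀ hy.1.le hy.2.le n
      have h2 : B / q * (((n + 1 : ℕ) : ℝ) ^ 1 * q ^ (n + 1)) = B * ((n + 1 : ℕ) * q ^ n) := by
        field_simp; ring
      rw [h2, Nat.add_sub_cancel]
      have := hy.1
      gcongr
      exact hB _
  have h3 : Summable fun n : ℕ => a n * (r : ℂ) ^ n := by
    have h5 : Summable fun n : ℕ => B * r ^ n :=
      (summable_geometric_of_lt_one hr0.le hr1).mul_left B
    have h6 : ∀ n : ℕ, ‖a n * (r : ℂ) ^ n‖ ≤ B * r ^ n := by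
      intro n
      rw [norm_mul, norm_pow, Complex.norm_real, Real.norm_of_nonneg hr0.le]
      gcongr
      exact hB _
    exact Summable.of_norm_bounded (f := fun n : ℕ => a n * (r : ℂ) ^ n) h5 h6
  have h4 : r ∈ Set.Ioo 0 q := ⟨hr0, hq1⟩
  exact hasDerivAt_tsum_of_isPreconnected hs isOpen_Ioo isPreconnected_Ioo h1 h2 h4 h3 h4

theorem radial_lipschitz {f : ℝ → ℂ} (hf : ContDiff ℝ 1 f) (hp : Function.Periodic f (2 * π))
    (hneg : ∀ n : ℤ, n < 0 → fourierCoeffOn Real.two_pi_pos f n = 0) :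
    ∃ L, 0 ≤ L ∧ ∀ r r' : ℝ, 1 / 2 ≤ r → r ≤ r' → r' < 1 →
      ‖∑' n : ℕ, fourierCoeffOn Real.two_pi_pos f n * (r' : ℂ) ^ n -
        ∑' n : ℕ, fourierCoeffOn Real.two_pi_pos f n * (r : ℂ) ^ n‖ ≤ L * (r' - r) := by
  have hc : Continuous (deriv f) := hf.continuous_deriv le_rfl
  have hπ : (π : ℂ) ≠ 0 := by exact_mod_cast Real.pi_ne_zero
  obtain ⟨M, hM⟩ := (isCompact_Icc (a := (0 : ℝ)) (b := 2 * π)).exists_bound_of_continuousOn
    hc.continuousOn
  obtain ⟨B, hB⟩ := (isCompact_Icc (a := (0 : ℝ)) (b := 2 * π)).exists_bound_of_continuousOn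
    hf.continuous.continuousOn
  have hM0 : 0 ≤ M := (norm_nonneg _).trans (hM 0 ⟨le_rfl, Real.two_pi_pos.le⟩)
  have hneg' : ∀ n : ℤ, n < 0 → II (deriv f) n = 0 := by
    intro n hn
    have := hneg n hn
    rw [coeff_eq] at this
    rw [II_deriv hf hp, (mul_eq_zero.mp this).resolve_left (by simp [hπ]), mul_zero]
  have hb : ∀ n : ℕ, ‖fourierCoeffOn Real.two_pi_pos f n‖ ≤
      ‖(1 / (2 * π) : ℂ)‖ * (B * |2 * π - 0|) := by
    intro n
    rw [coeff_eq, norm_mul]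
    gcongr
    refine intervalIntegral.norm_integral_le_of_norm_le_const fun x hx => ?_
    rw [Set.uIoc_of_le Real.two_pi_pos.le] at hx
    rw [norm_mul, norm_cexp, one_mul]
    exact hB x ⟨hx.1.le, hx.2⟩
  refine ⟨2 * M, by positivity, fun r r' h1 h2 h3 => ?_⟩
  refine norm_image_sub_le_of_norm_deriv_le_segment'
    (f := fun t : ℝ => ∑' n : ℕ, fourierCoeffOn Real.two_pi_pos f n * (t : ℂ) ^ n)
    (fun x hx => (series_deriv hb (by linarith [hx.1]) (by linarith [hx.2])).hasDerivWithinAt)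
    (fun x hx => ?_) r' ⟨h2, le_rfl⟩
  have x0 : 0 < x := by linarith [hx.1]
  have x1 : x < 1 := by linarith [hx.2]
  have h4 := poisson_bound hc hneg' hM x0.le x1
  have h5 : ∑' n : ℕ, (x : ℂ) ^ n * II (deriv f) n = (2 * π * I * x) *
      ∑' n : ℕ, fourierCoeffOn Real.two_pi_pos f n * (n * (x : ℂ) ^ (n - 1)) := by
    rw [← tsum_mul_left]
    congr 1
    ext n
    rw [II_deriv hf hp, coeff_eq]
    cases n with
    | zero => simp
    | succ n =>
      rw [Nat.add_sub_cancel]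
      push_cast
      field_simp
      ring
  rw [h5, norm_mul] at h4
  have h6 : ‖(2 * π * I * x : ℂ)‖ = 2 * π * x := by
    simp [abs_of_pos Real.pi_pos, abs_of_pos x0]
  rw [h6] at h4
  set A := ‖∑' n : ℕ, fourierCoeffOn Real.two_pi_pos f n * (n * (x : ℂ) ^ (n - 1))‖
  have hA : 0 ≤ A := norm_nonneg _
  have h7 : x * A ≤ M := le_of_mul_le_mul_left (by linarith) Real.two_pi_pos
  nlinarith [hx.1]

end Pool.Agent.P.MP_ee8931_an
end

-- part Pool.Agent.P.MP_ee8931_an.Main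
section

/-! The zero-angle point is not `C^1` when `D = ∞`. -/

namespace Pool.Agent.P.MP_ee8931_an

open Finset

noncomputable def AR (ρ σ : ℕ → ℝ) (N : ℕ) (r : ℝ) : Matrix (Fin N) (Fin N) ℝ :=
  Matrix.of fun j k => (ρ j - r * σ k) / (ρ j ^ 2 - σ k ^ 2)

def ext0 {N : ℕ} (y : Fin N → ℝ) (k : ℕ) : ℝ := if h : k < N then y ⟨k, h⟩ else 0

theorem mulVec_eq {ρ σ : ℕ → ℝ} {N : ℕ} {r : ℝ} (y : Fin N → ℝ) (j : ℕ) (hj : j < N) :
    ∑ k ∈ range N, (ρ j - r * σ k) / (ρ j ^ 2 - σ k ^ 2) * ext0 y k =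
      (AR ρ σ N r).mulVec y ⟨j, hj⟩ := by
  rw [sum_range]
  simp [Matrix.mulVec, dotProduct, AR, ext0]

theorem AR_unit {ρ σ : ℕ → ℝ} (h : Inter ρ σ) (n : ℕ) {r : ℝ} (hr0 : 0 ≤ r) (hr1 : r < 1) :
    IsUnit (AR ρ σ (n + 1) r) := by
  rw [← Matrix.mulVec_injective_iff_isUnit]
  intro y y' e
  have h1 : (AR ρ σ (n + 1) r).mulVec (y - y') = 0 := by
    rw [Matrix.mulVec_sub, sub_eq_zero]; exact e
  have h2 := solution_zero h n hr0 hr1 (ext0 (y - y')) fun j hj => by rw [mulVec_eq _ j hj, h1]; rfl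
  ext k
  have := h2 k k.2
  simpa [ext0, k.2, sub_eq_zero] using this

theorem AR_cfg {ρ σ : ℕ → ℝ} (h : Inter ρ σ) (n : ℕ) {r : ℝ} (hr0 : 0 ≤ r) (hr1 : r < 1) :
    ∃ ζ, Cfg ρ σ (n + 1) ((1 - r) / (1 + r)) ζ ∧
      ∑ j, ∑ k, (AR ρ σ (n + 1) r)⁻¹ j k = ∑ j ∈ range (n + 1), (ρ j + ζ j) := by
  have hu := (Matrix.isUnit_iff_isUnit_det _).mp (AR_unit h n hr0 hr1)
  set y := (AR ρ σ (n + 1) r)⁻¹.mulVec fun _ => 1 with hy
  have h1 : (AR ρ σ (n + 1) r).mulVec y = fun _ => 1 := by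
    rw [hy, Matrix.mulVec_mulVec, Matrix.mul_nonsing_inv _ hu, Matrix.one_mulVec]
  obtain ⟨ζ, h2, h3, h4⟩ := solution_one h n hr0 hr1 (ext0 y) fun j hj => by
    rw [mulVec_eq _ j hj, h1]
  refine ⟨ζ, ⟨h2, fun k hk => ?_⟩, ?_⟩
  · have h5 := h3 k hk
    have h6 : (1 + r) ≠ 0 := by linarith
    field_simp
    linear_combination h5
  · rw [← h4, sum_range]
    refine sum_congr rfl fun j _ => ?_
    rw [ext0, dif_pos j.2]
    simp [hy, Matrix.mulVec, dotProduct]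

theorem complex_sum {ρ σ : ℕ → ℝ} (h : Inter ρ σ) (n : ℕ) {r : ℝ} (hr0 : 0 ≤ r) (hr1 : r < 1) :
    ∑ j, ∑ k, (Matrix.of fun j k : Fin (n + 1) =>
      ((ρ j : ℂ) - r * σ k) / ((ρ j : ℂ) ^ 2 - (σ k : ℂ) ^ 2))⁻¹ j k =
      ((∑ j, ∑ k, (AR ρ σ (n + 1) r)⁻¹ j k : ℝ) : ℂ) := by
  have hu := (Matrix.isUnit_iff_isUnit_det _).mp (AR_unit h n hr0 hr1)
  have e : (Matrix.of fun j k : Fin (n + 1) =>
      ((ρ j : ℂ) - r * σ k) / ((ρ j : ℂ) ^ 2 - (σ k : ℂ) ^ 2)) =
      (AR ρ σ (n + 1) r).map Complex.ofRealHom := by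
    ext j k; simp [AR]
  have e2 : ((AR ρ σ (n + 1) r).map Complex.ofRealHom)⁻¹ =
      (AR ρ σ (n + 1) r)⁻¹.map Complex.ofRealHom := by
    apply Matrix.inv_eq_right_inv
    rw [← Matrix.map_mul, Matrix.mul_nonsing_inv _ hu]
    simp
  rw [e, e2]
  simp

open Real in
theorem main (s : ℕ → ℝ) (hs : StrictAnti s) (hpos : ∀ r, 0 < s r)
    (hD : ¬ Summable fun j => s (2 * j) * s (2 * j + 1) / (s (2 * j) - s (2 * j + 1)))
    (f : ℝ → ℂ) (hf : ContDiff ℝ 1 f) (hp : Function.Periodic f (2 * π))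
    (hneg : ∀ n : ℤ, n < 0 → fourierCoeffOn Real.two_pi_pos f n = 0)
    (hlim : ∀ z : ℂ, ‖z‖ < 1 → Filter.Tendsto
      (fun N : ℕ => ∑ j, ∑ k, (Matrix.of fun j k : Fin N =>
        ((s (2 * j) : ℂ) - z * s (2 * k + 1)) /
          ((s (2 * j) : ℂ) ^ 2 - (s (2 * k + 1) : ℂ) ^ 2))⁻¹ j k)
      Filter.atTop (nhds (∑' n : ℕ, fourierCoeffOn Real.two_pi_pos f n * z ^ n))) : False := by
  have h : Inter (fun j => s (2 * j)) (fun k => s (2 * k + 1)) :=
    ⟨fun k => hpos _, fun k => hs (by omega), fun k => hs (by omega)⟩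
  obtain ⟨L, hL0, hL⟩ := radial_lipschitz hf hp hneg
  refine hD (summable_of_lipschitz h
    (fun N r => ∑ j, ∑ k, (AR (fun j => s (2 * j)) (fun k => s (2 * k + 1)) (N + 1) r)⁻¹ j k)
    (fun r => (∑' n : ℕ, fourierCoeffOn Real.two_pi_pos f n * (r : ℂ) ^ n).re) hL0
    (fun N r h1 h2 => AR_cfg h N (by linarith) h2) (fun r h1 h2 => ?_) fun r r' h1 h2 h3 => ?_)
  · have h3 := (hlim r (by rw [Complex.norm_real, Real.norm_of_nonneg (by linarith)]; exact h2)).comp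
      (Filter.tendsto_add_atTop_nat 1)
    have h4 := (Complex.continuous_re.tendsto _).comp h3
    refine h4.congr fun N => ?_
    simp only [Function.comp]
    rw [complex_sum h N (by linarith) h2, Complex.ofReal_re]
  · have h4 := (Complex.re_le_norm _).trans (hL r r' h1 h2 h3)
    rw [Complex.sub_re] at h4
    nlinarith

end Pool.Agent.P.MP_ee8931_an
end
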